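import Pool.Agent.Lib.MP_257afc_co.ZO.H41.Face

/-!
The level lemma (section 3).
-/

set_option autoImplicit false

namespace Pool.Agent.Lib.MP_257afc_co.ZO.H83

open Pool.Agent.Lib.MP_257afc_co.ZO

theorem inT_iff {D : Type} {E : Set (D → Bool)} {f : ℕ → D} {I A : Finset ℕ} :
    InT E f I A ↔ ∃ y ∈ E, Agree f (fun i => decide (i ∈ A)) I y := by
  unfold InT Agree
  refine exists_congr fun y => and_congr_right fun _ => forall₂_congr fun i _ => ?_
  by_cases h : i ∈ A
  · simp [h]
  · simp [h]

theorem level (hR : RamStatement) (hN : NearStatement) (hK : KDStatement) (hS : StarStatement) :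
    LevelStatement := by
  classical
  intro k l
  obtain ⟨n0, hn0⟩ := hR Bool (max l (3 * k + 2))
  refine ⟨n0, ?_⟩
  intro D _ S E hNS hE f I hI h0 h1
  obtain ⟨J, hJI, hJc, hJ⟩ := hn0 (fun A => decide (InT E f I A)) I hI
  have hlev : ∀ A A' : Finset ℕ, A ⊆ J → A' ⊆ J → A.card = A'.card → InT E f I A →
      InT E f I A' := by
    intro A A' hA hA' hc h
    have h2 := hJ A A' hA hA' hc
    simp only [h, decide_true] at h2
    exact of_decide_eq_true h2.symm
  have hJk : 3 * k + 2 ≤ J.card := by rw [hJc]; exact le_max_right _ _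
  have hJl : l ≤ J.card := by rw [hJc]; exact le_max_left _ _
  by_cases hall : ∀ A, A ⊆ J → A.card ≤ k → InT E f I A
  · -- all levels are in
    obtain ⟨J0, hJ0, hJ0c⟩ := Finset.exists_subset_card_eq hJl
    refine ⟨J0, hJ0.trans hJI, hJ0c, fun A hA => ?_⟩
    by_contra hno
    rw [inT_iff] at hno
    obtain ⟨W, hWI, hWc, hW⟩ := hK D k S E hNS hE ℕ f _ I hno
    have h2 := hall (A ∩ W) ((Finset.inter_subset_left.trans hA).trans hJ0)
      ((Finset.card_le_card Finset.inter_subset_right).trans hWc)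
    obtain ⟨y, hy, hyA⟩ := h2
    refine hW ⟨y, hy, fun c hc => ?_⟩
    have h3 := hyA c (hWI hc)
    rw [Finset.mem_inter] at h3
    by_cases hcA : c ∈ A
    · rw [h3.2 ⟨hcA, hc⟩]; simp [hcA]
    · have h4 : ¬ y (f c) = true := fun h => hcA (h3.1 h).1
      rw [Bool.not_eq_true] at h4
      rw [h4]; simp [hcA]
  · -- some level is out
    exfalso
    push Not at hall
    obtain ⟨A1, hA1J, hA1k, hA1⟩ := hall
    have hex : ∃ r, ∃ A, A ⊆ J ∧ A.card = r ∧ ¬ InT E f I A := ⟨_, A1, hA1J, rfl, hA1⟩
    set r := Nat.find hex with hr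
    obtain ⟨A2, hA2J, hA2c, hA2⟩ := Nat.find_spec hex
    have hrk : r ≤ k := by
      by_contra h
      exact Nat.find_min hex (m := A1.card) (by omega) ⟨A1, hA1J, rfl, hA1⟩
    have hlow : ∀ A, A ⊆ J → A.card < r → InT E f I A := by
      intro A hA hc
      by_contra h
      exact Nat.find_min hex hc ⟨A, hA, rfl, h⟩
    have hr2 : 2 ≤ r := by
      by_contra h
      have h3 : A2.card = 0 ∨ A2.card = 1 := by omega
      rcases h3 with h3 | h3
      · rw [Finset.card_eq_zero] at h3
        exact hA2 (h3 ▸ h0)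
      · obtain ⟨i, hi⟩ := Finset.card_eq_one.1 h3
        refine hA2 (hi ▸ h1 i (hJI (hA2J ?_)))
        rw [hi]; exact Finset.mem_singleton_self i
    have hrout : ∀ A, A ⊆ J → A.card = r → ¬ InT E f I A :=
      fun A hA hc h => hA2 (hlev A A2 hA hA2J (hc.trans hA2c.symm) h)
    -- the levels `r .. 2k` are out
    have hout : ∀ s, r ≤ s → s ≤ 2 * k → ∀ A, A ⊆ J → A.card = s → ¬ InT E f I A := by
      intro s hrs
      induction s, hrs using Nat.le_induction with
      | base => exact fun _ A hA hc => hrout A hA hc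
      | succ s hs ih =>
        intro hsk A hA hc h
        obtain ⟨A3, hA3, hA3c⟩ := Finset.exists_subset_card_eq (s := J) (n := s) (by omega)
        have h4 := ih (by omega) A3 hA3 hA3c
        rw [inT_iff] at h4
        have h5 := hN D k S E hNS hE ℕ f _ I (J \ A3) (Finset.sdiff_subset.trans hJI) h4
          (fun c hc' => ?_)
        · rw [Finset.card_sdiff_of_subset hA3] at h5
          omega
        · rw [Finset.mem_sdiff] at hc'
          have h6 : InT E f I (insert c A3) := by
            refine hlev A _ hA (Finset.insert_subset hc'.1 hA3) ?_ h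
            rw [Finset.card_insert_of_notMem hc'.2, hA3c, hc]
          obtain ⟨y, hy, hyA⟩ := h6
          refine ⟨y, hy, fun c' hc1 hne => ?_⟩
          have h7 := hyA c' hc1
          rw [Finset.mem_insert] at h7
          by_cases h8 : c' ∈ A3
          · rw [h7.2 (Or.inr h8)]; simp [h8]
          · have h9 : ¬ y (f c') = true := fun h => (h7.1 h).elim hne h8
            rw [Bool.not_eq_true] at h9
            rw [h9]; simp [h8]
    -- a set all of whose realised subsets are small
    have hA0 : ∃ A0, A0 ⊆ J ∧ 2 * k ≤ A0.card ∧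
        ∀ A, A ⊆ A0 → InT E f I A → A.card < r := by
      by_cases hbig : ∃ n, ∃ A, A ⊆ J ∧ A.card = n ∧ r ≤ A.card ∧ InT E f I A
      · obtain ⟨A, hA, hAc, hAr, hAT⟩ := Nat.find_spec hbig
        have h3 : 2 * k < A.card := by
          by_contra h
          exact hout A.card hAr (by omega) A hA rfl hAT
        have hne : A.Nonempty := by
          rw [← Finset.card_pos]; omega
        obtain ⟨a, ha⟩ := hne
        refine ⟨A.erase a, (Finset.erase_subset _ _).trans hA, ?_, fun B hB hBT => ?_⟩
        · rw [Finset.card_erase_of_mem ha]; omega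
        · by_contra h
          have h4 : B.card < A.card :=
            lt_of_le_of_lt (Finset.card_le_card hB) (Finset.card_erase_lt_of_mem ha)
          refine Nat.find_min hbig (m := B.card) (by omega) ⟨B, ?_, rfl, by omega, hBT⟩
          exact (hB.trans (Finset.erase_subset _ _)).trans hA
      · refine ⟨J, Finset.Subset.refl _, by omega, fun A hA hT => ?_⟩
        by_contra h
        exact hbig ⟨A.card, A, hA, rfl, by omega, hT⟩
    obtain ⟨A0, hA0J, hA0c, hA0⟩ := hA0
    obtain ⟨L0, hL0, hL0c⟩ := Finset.exists_subset_card_eq (s := A0) (n := r - 2) (by omega)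
    set E1 : Set (D → Bool) :=
      {y | y ∈ E ∧ Agree f (fun i => decide (i ∈ L0)) (L0 ∪ (I \ A0)) y} with hE1
    -- the points with trace `L0 + a`
    have hpt : ∀ a ∈ A0 \ L0, ∃ y ∈ E1, ∀ i ∈ I, (y (f i) = true ↔ i ∈ insert a L0) := by
      intro a ha
      rw [Finset.mem_sdiff] at ha
      have h3 : InT E f I (insert a L0) := by
        refine hlow _ (Finset.insert_subset (hA0J ha.1) (hL0.trans hA0J)) ?_
        rw [Finset.card_insert_of_notMem ha.2, hL0c]; omega
      obtain ⟨y, hy, hyA⟩ := h3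
      refine ⟨y, ⟨hy, fun i hi => ?_⟩, hyA⟩
      have hiI : i ∈ I := by
        rcases Finset.mem_union.1 hi with h | h
        · exact hJI (hA0J (hL0 h))
        · exact (Finset.mem_sdiff.1 h).1
      have h4 := hyA i hiI
      rw [Finset.mem_insert] at h4
      by_cases h5 : i ∈ L0
      · rw [h4.2 (Or.inr h5)]; simp [h5]
      · have h6 : ¬ y (f i) = true := by
          intro h
          rcases h4.1 h with h7 | h7
          · rcases Finset.mem_union.1 hi with h8 | h8
            · exact h5 h8
            · exact (Finset.mem_sdiff.1 h8).2 (h7 ▸ ha.1)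
          · exact h5 h7
        rw [Bool.not_eq_true] at h6
        rw [h6]; simp [h5]
    have hcardX : k < (A0 \ L0).card := by
      rw [Finset.card_sdiff_of_subset hL0]; omega
    have hneX : (A0 \ L0).Nonempty := by
      rw [← Finset.card_pos]; omega
    have hE1f : IsFace S E1 := by
      obtain ⟨a, ha⟩ := hneX
      obtain ⟨y, hy, -⟩ := hpt a ha
      exact hE.coord f _ _ ⟨y, hy.1, hy.2⟩
    -- the trace of a point of `E1`
    have htr : ∀ y ∈ E1, ∃ A, A ⊆ A0 ∧ L0 ⊆ A ∧ A.card < r ∧
        ∀ i ∈ I, (y (f i) = true ↔ i ∈ A) := by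
      intro y hy
      have hsub : I.filter (fun i => y (f i) = true) ⊆ A0 := by
        intro i hi
        rw [Finset.mem_filter] at hi
        by_contra h
        have h3 := hy.2 i (Finset.mem_union_right _ (Finset.mem_sdiff.2 ⟨hi.1, h⟩))
        have h4 : i ∉ L0 := fun h5 => h (hL0 h5)
        rw [hi.2] at h3
        simp [h4] at h3
      refine ⟨I.filter (fun i => y (f i) = true), hsub, ?_, ?_, ?_⟩
      · intro i hi
        have h3 := hy.2 i (Finset.mem_union_left _ hi)
        simp only [hi, decide_true] at h3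
        exact Finset.mem_filter.2 ⟨hJI (hA0J (hL0 hi)), h3⟩
      · refine hA0 _ hsub ⟨y, hy.1, fun i hi => ?_⟩
        rw [Finset.mem_filter]
        exact ⟨fun h => ⟨hi, h⟩, fun h => h.2⟩
      · intro i hi
        rw [Finset.mem_filter]
        exact ⟨fun h => ⟨hi, h⟩, fun h => h.2⟩
    have hcount : ∀ (y : D → Bool) (A : Finset ℕ), A ⊆ A0 →
        (∀ i ∈ I, (y (f i) = true ↔ i ∈ A)) →
        ∑ i ∈ A0, bv (y (f i)) = (A.card : ℝ) := by
      intro y A hA h
      have h3 : ∑ i ∈ A0, bv (y (f i)) = ∑ i ∈ A0, if i ∈ A then (1 : ℝ) else 0 := by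
        refine Finset.sum_congr rfl fun i hi => ?_
        have h4 := h i (hJI (hA0J hi))
        by_cases h5 : i ∈ A
        · rw [if_pos h5, h4.2 h5, bv_true]
        · have h6 : ¬ y (f i) = true := fun h => h5 (h4.1 h)
          rw [Bool.not_eq_true] at h6
          rw [if_neg h5, h6, bv_false]
      rw [h3, Finset.sum_ite_mem, Finset.sum_const, nsmul_eq_mul, mul_one,
        Finset.inter_eq_right.2 hA]
    have hface : IsFace S {y | y ∈ E1 ∧ (∑ i ∈ A0, bv (y (f i))) - ((r - 1 : ℕ) : ℝ) = 0} := by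
      refine hE1f.zero (h := fun y => (∑ i ∈ A0, bv (y (f i))) - ((r - 1 : ℕ) : ℝ))
        ((Aff.sum _ fun i _ => Aff.coord (f i)).sub (Aff.const _)) (fun y hy => ?_) ?_
      · obtain ⟨A, hA, -, hAr, hAy⟩ := htr y hy
        rw [hcount y A hA hAy, sub_nonpos, Nat.cast_le]
        omega
      · obtain ⟨a, ha⟩ := hneX
        obtain ⟨y, hy, hyA⟩ := hpt a ha
        rw [Finset.mem_sdiff] at ha
        refine ⟨y, hy, ?_⟩
        rw [hcount y _ (Finset.insert_subset ha.1 hL0) hyA,
          Finset.card_insert_of_notMem ha.2, hL0c, sub_eq_zero, Nat.cast_inj]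
        omega
    have hfin := hS D k S _ hNS hface ℕ f (fun _ => false) (A0 \ L0) (A0 \ L0)
      (Finset.Subset.refl _) ?_ ?_
    · omega
    · rintro y ⟨hy, hy0⟩
      obtain ⟨A, hA, hLA, hAr, hAy⟩ := htr y hy
      rw [hcount y A hA hAy, sub_eq_zero, Nat.cast_inj] at hy0
      have h3 : (A \ L0).card = 1 := by
        rw [Finset.card_sdiff_of_subset hLA]; omega
      obtain ⟨c, hc⟩ := Finset.card_eq_one.1 h3
      have hcA : c ∈ A \ L0 := by rw [hc]; exact Finset.mem_singleton_self c
      rw [Finset.mem_sdiff] at hcA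
      refine ⟨c, Finset.mem_sdiff.2 ⟨hA hcA.1, hcA.2⟩, ?_, fun c' hc' hne => ?_⟩
      · rw [(hAy c (hJI (hA0J (hA hcA.1)))).2 hcA.1]; simp
      · rw [Finset.mem_sdiff] at hc'
        have h4 := hAy c' (hJI (hA0J hc'.1))
        have h5 : c' ∉ A := by
          intro h
          have h6 : c' ∈ A \ L0 := Finset.mem_sdiff.2 ⟨h, hc'.2⟩
          rw [hc, Finset.mem_singleton] at h6
          exact hne h6
        have h6 : ¬ y (f c') = true := fun h => h5 (h4.1 h)
        rwa [Bool.not_eq_true] at h6
    · intro c hc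
      obtain ⟨y, hy, hyA⟩ := hpt c hc
      rw [Finset.mem_sdiff] at hc
      refine ⟨y, ⟨hy, ?_⟩, ?_⟩
      · rw [hcount y _ (Finset.insert_subset hc.1 hL0) hyA,
          Finset.card_insert_of_notMem hc.2, hL0c, sub_eq_zero, Nat.cast_inj]
        omega
      · rw [(hyA c (hJI (hA0J hc.1))).2 (Finset.mem_insert_self c L0)]; simp

end Pool.Agent.Lib.MP_257afc_co.ZO.H83
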